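import Pool.Agent.V1154.Bir.Main

/-!
A flat projective family over the affine line, all of whose fibres are integral and birational to
one another, that has no birational trivialization at the point zero: the sextic surfaces
`y ^ 2 h ^ 4 = (z ^ 2 - u w h) ^ 3 + (z ^ 2 - u w h) h ^ 4` in projective three-space.
-/

open MvPolynomial

universe u

namespace Pool.Agent.Results.MP_45f016_ag.NoTrivialization

/-- Dehomogenization: the last coordinate `x_t` is set equal to one, and the coefficients are
mapped by `g`. -/
noncomputable def dehom {R A : Type*} [CommRing R] [CommRing A] (g : R →+* A) (t : ℕ) :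
    MvPolynomial (Fin (t + 1)) R →+* MvPolynomial (Fin t) A :=
  eval₂Hom (C.comp g) (Fin.snoc (α := fun _ => MvPolynomial (Fin t) A) (fun i => X i) 1)

section chart

variable {R A A' k : Type*} [CommRing R] [CommRing A] [CommRing A'] [CommRing k]

/-- The ideal of the affine chart `x_t ≠ 0` of the base change along `g`. -/
noncomputable def chartIdeal (g : R →+* A) {t : ℕ} (I : Ideal (MvPolynomial (Fin (t + 1)) R)) :
    Ideal (MvPolynomial (Fin t) A) :=
  I.map (dehom g t)

/-- Let `I` be a homogeneous ideal of `R[x_0, ..., x_t]`, which defines a closed subscheme of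
projective `t`-space over `R`. This is the coordinate ring of the affine chart `x_t ≠ 0` of its
base change along `g`. -/
def Chart (g : R →+* A) {t : ℕ} (I : Ideal (MvPolynomial (Fin (t + 1)) R)) : Type _ :=
  MvPolynomial (Fin t) A ⧸ chartIdeal g I

noncomputable instance (g : R →+* A) {t : ℕ} (I : Ideal (MvPolynomial (Fin (t + 1)) R)) :
    CommRing (Chart g I) :=
  (inferInstance : CommRing (MvPolynomial (Fin t) A ⧸ chartIdeal g I))

noncomputable instance (g : R →+* A) {t : ℕ} (I : Ideal (MvPolynomial (Fin (t + 1)) R)) :
    Algebra A (Chart g I) :=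
  (inferInstance : Algebra A (MvPolynomial (Fin t) A ⧸ chartIdeal g I))

lemma le_comap {g : R →+* A} (h : A →+* A') {g' : R →+* A'} (H : h.comp g = g') {t : ℕ}
    (I : Ideal (MvPolynomial (Fin (t + 1)) R)) :
    chartIdeal g I ≤ (chartIdeal g' I).comap (MvPolynomial.map h) := by
  have hd : (MvPolynomial.map h).comp (dehom g t) = dehom g' t :=
    Pool.Agent.V1154.Bir.map_comp_dehom h H t
  unfold chartIdeal
  rw [Ideal.map_le_iff_le_comap, Ideal.comap_comap, hd]
  exact Ideal.le_comap_map

/-- The map of affine charts given by a ring homomorphism `h` of the base rings. -/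
noncomputable def Chart.map {g : R →+* A} (h : A →+* A') {g' : R →+* A'} (H : h.comp g = g')
    {t : ℕ} (I : Ideal (MvPolynomial (Fin (t + 1)) R)) : Chart g I →+* Chart g' I :=
  Ideal.quotientMap (chartIdeal g' I) (MvPolynomial.map h) (le_comap h H I)

/-- Let `A` be the coordinate ring of an affine variety `B'`, let `β : A → k` be a point of `B'`,
and let `X'` be the projective scheme over `B'` obtained from `I` by base change along `g`. These
are the functions on the chart of `X'` whose restriction to the fibre over `β` is not a
zero-divisor. -/
noncomputable def nonzeroOnFibre {g : R →+* A} (β : A →+* k) {g' : R →+* k} (H : β.comp g = g')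
    {t : ℕ} (I : Ideal (MvPolynomial (Fin (t + 1)) R)) : Submonoid (Chart g I) :=
  (nonZeroDivisors (Chart g' I)).comap (Chart.map β H I)

/-- The localization of the chart of `X'` at these functions. If the fibre over `β` is integral
and not contained in the hyperplane `x_t = 0`, this is the local ring of `X'` at the generic point
of the fibre over `β`. -/
def FibreLocal {g : R →+* A} (β : A →+* k) {g' : R →+* k} (H : β.comp g = g') {t : ℕ}
    (I : Ideal (MvPolynomial (Fin (t + 1)) R)) : Type _ :=
  Localization (nonzeroOnFibre β H I)

noncomputable instance {g : R →+* A} (β : A →+* k) {g' : R →+* k} (H : β.comp g = g') {t : ℕ}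
    (I : Ideal (MvPolynomial (Fin (t + 1)) R)) : CommRing (FibreLocal β H I) :=
  (inferInstance : CommRing (Localization (nonzeroOnFibre β H I)))

/-- The structure map of the chart over the coordinate ring of `B'`. -/
noncomputable def Chart.base (g : R →+* A) {t : ℕ} (I : Ideal (MvPolynomial (Fin (t + 1)) R)) :
    A →+* Chart g I :=
  algebraMap A (Chart g I)

/-- The structure map of the local ring over the coordinate ring of `B'`. -/
noncomputable def FibreLocal.base {g : R →+* A} (β : A →+* k) {g' : R →+* k}
    (H : β.comp g = g') {t : ℕ} (I : Ideal (MvPolynomial (Fin (t + 1)) R)) :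
    A →+* FibreLocal β H I :=
  (algebraMap (Chart g I) (Localization (nonzeroOnFibre β H I))).comp (Chart.base g I)

end chart

section families

variable {k : Type u} [Field k]

/-- The function field of the closed subvariety of projective space over `k` obtained from `I`
by specialization along `g`. -/
def FracField {R : Type*} [CommRing R] (g : R →+* k) {t : ℕ}
    (I : Ideal (MvPolynomial (Fin (t + 1)) R)) : Type _ :=
  FractionRing (Chart g I)

noncomputable instance {R : Type*} [CommRing R] (g : R →+* k) {t : ℕ}
    (I : Ideal (MvPolynomial (Fin (t + 1)) R)) : CommRing (FracField g I) :=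
  (inferInstance : CommRing (FractionRing (Chart g I)))

noncomputable instance {R : Type*} [CommRing R] (g : R →+* k) {t : ℕ}
    (I : Ideal (MvPolynomial (Fin (t + 1)) R)) : Algebra k (FracField g I) :=
  (inferInstance : Algebra k (FractionRing (Chart g I)))

/-- Two projective varieties over `k` are birational: their function fields are isomorphic. -/
def Birational {R R' : Type*} [CommRing R] [CommRing R'] (g : R →+* k) (g' : R' →+* k) {t t' : ℕ}
    (I : Ideal (MvPolynomial (Fin (t + 1)) R)) (I' : Ideal (MvPolynomial (Fin (t' + 1)) R')) :
    Prop :=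
  Nonempty (FracField g I ≃ₐ[k] FracField g' I')

/-- The ideal of the fibre over the point `b` of the affine line. -/
noncomputable def fibreIdeal {t : ℕ} (I : Ideal (MvPolynomial (Fin (t + 1)) (Polynomial k)))
    (b : k) : Ideal (MvPolynomial (Fin (t + 1)) k) :=
  I.map (MvPolynomial.map (Polynomial.evalRingHom b))

/-- The ideal is generated by homogeneous polynomials. -/
def IsHomog {R : Type*} [CommRing R] {t : ℕ} (I : Ideal (MvPolynomial (Fin (t + 1)) R)) : Prop :=
  ∃ S : Set (MvPolynomial (Fin (t + 1)) R), (∀ F ∈ S, ∃ n, F.IsHomogeneous n) ∧ I = Ideal.span S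

/-- `J` defines a projective variety in projective `s`-space over `k`, not contained in the
hyperplane `y_s = 0`. -/
structure IsProjVariety {s : ℕ} (J : Ideal (MvPolynomial (Fin (s + 1)) k)) : Prop where
  homogeneous : IsHomog J
  prime : J.IsPrime
  chart : X (Fin.last s) ∉ J

/-- A family as in the problem, over the affine line with coordinate ring `k[u]`: the closed
subscheme of the product of the affine line and projective `t`-space given by a homogeneous ideal
`I` of `k[u][x_0, ..., x_t]` is flat over the line, all its fibres are varieties (not contained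
in the hyperplane `x_t = 0`), and all its fibres are birational to one another. -/
structure IsFamily {t : ℕ} (I : Ideal (MvPolynomial (Fin (t + 1)) (Polynomial k))) : Prop where
  homogeneous : IsHomog I
  flat : Module.Flat (Polynomial k) (MvPolynomial (Fin (t + 1)) (Polynomial k) ⧸ I)
  fibre : ∀ b : k, IsProjVariety (fibreIdeal I b)
  birational : ∀ b c : k, Birational (Polynomial.evalRingHom b) (Polynomial.evalRingHom c) I I

/-- `J` defines a projective variety that is birational to all fibres of the family given by
`I`. -/
structure IsModel {t s : ℕ} (I : Ideal (MvPolynomial (Fin (t + 1)) (Polynomial k)))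
    (J : Ideal (MvPolynomial (Fin (s + 1)) k)) : Prop where
  variety : IsProjVariety J
  birational : ∀ b : k, Birational (RingHom.id k) (Polynomial.evalRingHom b) J I

/-- An irreducible affine variety `B'` (the spectrum of the domain `A`) with a finite surjective
morphism to an open subset `f ≠ 0` of the affine line. -/
structure Cover (k : Type u) [Field k] where
  f : Polynomial k
  A : Type u
  [commRing : CommRing A]
  [isDomain : IsDomain A]
  [algebra : Algebra (Localization.Away f) A]
  [finite : Module.Finite (Localization.Away f) A]
  injective : Function.Injective (algebraMap (Localization.Away f) A)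

attribute [instance] Cover.commRing Cover.isDomain Cover.algebra Cover.finite

/-- The ring homomorphism `k[u] → A` that corresponds to the morphism from `B'` to the line. -/
noncomputable def Cover.str (c : Cover k) : Polynomial k →+* c.A :=
  (algebraMap (Localization.Away c.f) c.A).comp (algebraMap (Polynomial k) (Localization.Away c.f))

/-- The ring homomorphism `k → A`. -/
noncomputable def Cover.strk (c : Cover k) : k →+* c.A := c.str.comp Polynomial.C

lemma Cover.comp_strk {c : Cover k} {β : c.A →+* k} {b : k}
    (h : β.comp c.str = Polynomial.evalRingHom b) : β.comp c.strk = RingHom.id k :=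
  Pool.Agent.V1154.Bir.comp_C h

/-- Two ring homomorphisms with the same source have isomorphic targets over the source. -/
def IsoOver {A S T : Type*} [CommRing A] [CommRing S] [CommRing T] (f : A →+* S) (g : A →+* T) :
    Prop :=
  ∃ e : S ≃+* T, ∀ a, e (f a) = g a

/-- The family given by `I` has a birational trivialization at the point `b` of the affine line,
with the projective variety given by `J` as model of the fibres. There are an irreducible variety
`B'` with a finite surjective morphism to an open set `U` and a point `b'` of `B'` over `b` (the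
homomorphism `β`; so `U` contains `b`), such that the local ring of `X ×_B B'` at the generic
point of its fibre over `b'` and the local ring of `B' × X_0` at the generic point of
`{b'} × X_0` are isomorphic over `B'`. -/
def HasTrivialization {t s : ℕ} (I : Ideal (MvPolynomial (Fin (t + 1)) (Polynomial k)))
    (J : Ideal (MvPolynomial (Fin (s + 1)) k)) (b : k) : Prop :=
  ∃ (c : Cover k) (β : c.A →+* k) (h : β.comp c.str = Polynomial.evalRingHom b),
    IsoOver (FibreLocal.base β h I) (FibreLocal.base β (Cover.comp_strk h) J)

/-- The quadratic form `z ^ 2 - u w h` in the variables `y, z, w, h`. -/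
noncomputable def quad {R : Type*} [CommRing R] (u : R) : MvPolynomial (Fin 4) R :=
  X 1 ^ 2 - C u * X 2 * X 3

/-- The sextic form `y ^ 2 h ^ 4 - (z ^ 2 - u w h) ^ 3 - (z ^ 2 - u w h) h ^ 4`. -/
noncomputable def sextic {R : Type*} [CommRing R] (u : R) : MvPolynomial (Fin 4) R :=
  X 0 ^ 2 * X 3 ^ 4 - quad u ^ 3 - quad u * X 3 ^ 4

variable (k) in
/-- The ideal of `k[u][y, z, w, h]` generated by this form. -/
noncomputable def family : Ideal (MvPolynomial (Fin 4) (Polynomial k)) :=
  Ideal.span {sextic Polynomial.X}

end families

open Pool.Agent.V1154 in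
lemma isFamily_family {k : Type u} [Field k] [IsAlgClosed k] (h2 : (2 : k) ≠ 0) :
    IsFamily (t := 3) (family k) := by
  have hI := Bir.isFamily_fam k h2
  refine ⟨hI.homogeneous, hI.flat, fun b => ⟨?_, hI.prime b, hI.chart b⟩, ?_⟩
  · obtain ⟨S, hS, hSI⟩ := hI.homogeneous
    refine ⟨MvPolynomial.map (Polynomial.evalRingHom b) '' S, ?_, ?_⟩
    · rintro _ ⟨F, hF, rfl⟩
      obtain ⟨n, hn⟩ := hS F hF
      exact ⟨n, hn.map _⟩
    · have hfam : family k = Ideal.span S := hSI
      rw [fibreIdeal, hfam, Ideal.map_span]
  · intro b c
    exact hI.birational b c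

open Pool.Agent.V1154 in
lemma exists_model {k : Type u} [Field k] {t : ℕ}
    {I : Ideal (MvPolynomial (Fin (t + 1)) (Polynomial k))} (hI : IsFamily I) :
    IsModel I (fibreIdeal I 1) := by
  refine ⟨hI.fibre 1, ?_⟩
  intro b
  obtain ⟨e⟩ := hI.birational 1 b
  have h : chartIdeal (RingHom.id k) (fibreIdeal I 1) =
      chartIdeal (Polynomial.evalRingHom (1 : k)) I := by
    rw [chartIdeal, fibreIdeal, chartIdeal, Ideal.map_map]
    congr 1
    apply MvPolynomial.ringHom_ext
    · intro a
      simp [dehom]
    · intro i
      refine Fin.lastCases ?_ (fun j => ?_) i <;> simp [dehom]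
  have h' : Nonempty (FractionRing (MvPolynomial (Fin t) k ⧸
      chartIdeal (RingHom.id k) (fibreIdeal I 1)) ≃ₐ[k]
      FractionRing (MvPolynomial (Fin t) k ⧸ chartIdeal (Polynomial.evalRingHom (1 : k)) I)) := by
    rw [h]
    exact ⟨AlgEquiv.refl⟩
  have h'' : Nonempty (FracField (RingHom.id k) (fibreIdeal I 1) ≃ₐ[k]
      FracField (Polynomial.evalRingHom (1 : k)) I) := h'
  obtain ⟨e'⟩ := h''
  exact ⟨e'.trans e⟩

open Pool.Agent.V1154 in
lemma not_hasTrivialization {k : Type u} [Field k] [IsAlgClosed k] (h2 : (2 : k) ≠ 0) {s : ℕ}
    (J : Ideal (MvPolynomial (Fin (s + 1)) k)) (hJ : IsModel (t := 3) (family k) J) :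
    ¬ HasTrivialization (t := 3) (family k) J 0 := by
  rintro ⟨c, β, h, e, he⟩
  let c' : Bir.Cover k := { f := c.f, A := c.A, injective := c.injective }
  exact Bir.no_triv h2 J 0 (hJ.birational 0) ⟨c', β, h, e, he⟩

/-- **Main result.** Over every algebraically closed field of characteristic different from two
the family of sextic surfaces `y ^ 2 h ^ 4 = (z ^ 2 - u w h) ^ 3 + (z ^ 2 - u w h) h ^ 4` is a
family as in the problem, it has a model, and it has no birational trivialization at the point
`u = 0`, for any projective variety birational to the fibres. -/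
theorem result (k : Type u) [Field k] [IsAlgClosed k] (h2 : (2 : k) ≠ 0) :
    IsFamily (t := 3) (family k) ∧
      (∃ (s : ℕ) (J : Ideal (MvPolynomial (Fin (s + 1)) k)), IsModel (t := 3) (family k) J) ∧
      ∀ (s : ℕ) (J : Ideal (MvPolynomial (Fin (s + 1)) k)), IsModel (t := 3) (family k) J →
        ¬ HasTrivialization (t := 3) (family k) J 0 :=
  ⟨isFamily_family h2, ⟨3, _, exists_model (isFamily_family h2)⟩,
    fun _ J hJ => not_hasTrivialization h2 J hJ⟩

end Pool.Agent.Results.MP_45f016_ag.NoTrivialization
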